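import Pool.Agent.H94.LP3.M25

/-!
# Any number of large multiplicities with sum at most `r d - D` and pair sums at most `d + 1`
-/

namespace Pool.Agent.H74.CT

open Pool.Agent.H18.Fat Pool.Agent.H18.Ub Finset

/-- The explicit constant. -/
def DD (r M : ℕ) : ℕ := 10 ^ 6 * r ^ 3 * M ^ 8 * (M + r - 1).choose r ^ 3

/-- Lower bound for the general dimension. -/
theorem dim_ge (s j k : ℕ) (m : Fin k → ℕ) (J : Finset (Fin k)) :
    (j + (s + 2)).choose (s + 2) ≤ (generalDim (s + 2) j fun i => if i ∈ J then m i else 0) +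
      ∑ i ∈ J, (m i + (s + 2) - 1).choose (s + 2) := by
  have h1 := generalDim_ge (r := s + 2) (by omega) j
    (fun i => if i ∈ J then m i else 0)
  have h2 : ∑ i, ((((if i ∈ J then m i else 0) + (s + 2) - 1).choose (s + 2) : ℕ) : ℤ) =
      ((∑ i ∈ J, (m i + (s + 2) - 1).choose (s + 2) : ℕ) : ℤ) := by
    rw [← Nat.cast_sum]
    congr 1
    rw [← sum_filter_add_sum_filter_not univ (fun i => i ∈ J)]
    have h3 : ∑ i ∈ univ.filter (fun i => i ∉ J),
        ((if i ∈ J then m i else 0) + (s + 2) - 1).choose (s + 2) = 0 := by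
      refine sum_eq_zero fun i hi => ?_
      rw [if_neg (mem_filter.1 hi).2, Nat.choose_eq_zero_of_lt (by omega)]
    have h4 : univ.filter (fun i => i ∈ J) = J := by
      ext i
      simp
    rw [h3, add_zero, h4]
    exact sum_congr rfl fun i hi => by rw [if_pos hi]
  rw [h2] at h1
  omega

end Pool.Agent.H74.CT
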